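import Mathlib

set_option autoImplicit false

namespace Pool.Agent.Results.MP_812af1_co.Counter

open Complex

/-- Butson matrices `BH(m, n)`. -/
def IsBH (m : ℕ) {n : ℕ} (H : Matrix (Fin n) (Fin n) ℂ) : Prop :=
  (∀ i j, H i j ^ m = 1) ∧ H * H.conjTranspose = (n : ℂ) • (1 : Matrix _ _ ℂ)

/-- One elementary operation. -/
def Step (m : ℕ) {n : ℕ} (H K : Matrix (Fin n) (Fin n) ℂ) : Prop :=
  (∃ σ : Equiv.Perm (Fin n), ∀ i j, K i j = H (σ i) j) ∨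
  (∃ σ : Equiv.Perm (Fin n), ∀ i j, K i j = H i (σ j)) ∨
  (∃ (a : Fin n) (z : ℂ), z ^ m = 1 ∧ ∀ i j, K i j = if i = a then z * H i j else H i j) ∨
  (∃ (a : Fin n) (z : ℂ), z ^ m = 1 ∧ ∀ i j, K i j = if j = a then z * H i j else H i j)

/-- First row and first column are all ones. -/
def Normalised {n : ℕ} (H : Matrix (Fin n) (Fin n) ℂ) : Prop :=
  ∀ i j : Fin n, i.1 = 0 ∨ j.1 = 0 → H i j = 1

/-- In every row but the first, all `m`-th roots of unity occur equally often. -/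
def RowBal (m : ℕ) {n : ℕ} (H : Matrix (Fin n) (Fin n) ℂ) : Prop :=
  ∀ i : Fin n, i.1 ≠ 0 → ∀ z w : ℂ, z ^ m = 1 → w ^ m = 1 →
    {j | H i j = z}.ncard = {j | H i j = w}.ncard

/-- In every column but the first, all `m`-th roots of unity occur equally often. -/
def ColBal (m : ℕ) {n : ℕ} (H : Matrix (Fin n) (Fin n) ℂ) : Prop :=
  ∀ j : Fin n, j.1 ≠ 0 → ∀ z w : ℂ, z ^ m = 1 → w ^ m = 1 →
    {i | H i j = z}.ncard = {i | H i j = w}.ncard

def E : Fin 16 → Fin 16 → Fin 4 :=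
  ![![0, 0, 0, 0, 0, 0, 0, 0, 0, 0, 0, 0, 0, 0, 0, 0],
    ![0, 0, 0, 0, 1, 1, 1, 1, 2, 2, 2, 2, 3, 3, 3, 3],
    ![0, 0, 2, 3, 3, 1, 2, 1, 3, 0, 2, 0, 3, 1, 1, 2],
    ![0, 1, 3, 2, 1, 2, 3, 0, 3, 1, 1, 3, 2, 0, 2, 0],
    ![0, 3, 3, 1, 3, 2, 0, 2, 2, 3, 1, 1, 0, 0, 2, 1],
    ![0, 2, 3, 1, 0, 0, 3, 1, 2, 2, 3, 3, 1, 1, 0, 2],
    ![0, 1, 3, 2, 2, 1, 0, 3, 1, 0, 3, 2, 3, 2, 0, 1],
    ![0, 3, 2, 0, 1, 2, 1, 0, 0, 3, 3, 3, 1, 2, 2, 1],
    ![0, 2, 1, 2, 0, 2, 2, 0, 1, 3, 0, 1, 3, 1, 3, 3],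
    ![0, 2, 1, 1, 3, 3, 0, 1, 0, 0, 2, 2, 2, 3, 1, 3],
    ![0, 3, 0, 0, 2, 3, 2, 3, 2, 1, 3, 1, 2, 1, 1, 0],
    ![0, 2, 2, 1, 2, 0, 1, 3, 3, 1, 1, 0, 0, 2, 3, 3],
    ![0, 1, 0, 3, 3, 0, 2, 2, 1, 3, 1, 3, 1, 2, 2, 0],
    ![0, 3, 1, 3, 2, 1, 3, 2, 0, 1, 0, 2, 1, 0, 3, 2],
    ![0, 0, 1, 2, 1, 3, 3, 3, 1, 2, 2, 0, 0, 3, 1, 2],
    ![0, 1, 2, 3, 0, 3, 1, 2, 3, 2, 0, 1, 2, 3, 0, 1]]

noncomputable def g (x : Fin 4) : ℂ := I ^ x.1

lemma g_val : g 0 = 1 ∧ g 1 = I ∧ g 2 = -1 ∧ g 3 = -I := by simp [g]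

lemma g_pow (x : Fin 4) : g x ^ 4 = 1 := by rw [g, ← pow_mul, mul_comm, pow_mul]; simp

lemma root (z : ℂ) (h : z ^ 4 = 1) : ∃ x, z = g x := by
  obtain ⟨h0, h1, h2, h3⟩ := g_val
  have : (z - 1) * (z - I) * (z + 1) * (z + I) = 0 := by
    linear_combination h + (1 - z ^ 2) * I_sq
  simp only [mul_eq_zero] at this
  rcases this with ((h | h) | h) | h
  · exact ⟨0, by rw [h0]; linear_combination h⟩
  · exact ⟨1, by rw [h1]; linear_combination h⟩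
  · exact ⟨2, by rw [h2]; linear_combination h⟩
  · exact ⟨3, by rw [h3]; linear_combination h⟩

lemma g_inj : Function.Injective g := by
  obtain ⟨h0, h1, h2, h3⟩ := g_val
  intro a b
  fin_cases a <;> fin_cases b <;> simp [h0, h1, h2, h3, Complex.ext_iff] <;> norm_num

lemma g_sub (a b : Fin 4) : g (-b) * g a = g (a - b) ∧ g a * star (g b) = g (a - b) := by
  have e1 : ((-1 : Fin 4) : ℕ) = 3 := rfl
  have e2 : ((-2 : Fin 4) : ℕ) = 2 := rfl
  have e3 : ((-3 : Fin 4) : ℕ) = 1 := rfl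
  fin_cases a <;> fin_cases b <;> simp [g, pow_succ, e1, e2, e3]

lemma cnt (f : Fin 16 → Fin 4) (x : Fin 4) :
    {j | g (f j) = g x}.ncard = (Finset.univ.filter fun j => f j = x).card := by
  rw [← Set.ncard_coe_finset]
  congr 1
  ext j
  simp [g_inj.eq_iff]

def c (i k : Fin 16) (x : Fin 4) : ℕ := (Finset.univ.filter fun j => E i j - E k j = x).card

lemma d1 : ∀ i k, i ≠ k → c i k 0 = c i k 2 ∧ c i k 1 = c i k 3 := by decide +kernel
lemma d2 : ∀ i j : Fin 16, i.1 = 0 ∨ j.1 = 0 → E i j = 0 := by decide +kernel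
lemma d3 : ∀ i : Fin 16, i.1 ≠ 0 → ∀ x,
    (Finset.univ.filter fun j => E i j = x).card = 4 ∧
    (Finset.univ.filter fun j => E j i = x).card = 4 := by decide +kernel

lemma cols {m n : ℕ} (H : Matrix (Fin n) (Fin n) ℂ) (e : Fin n → ℂ) (he : ∀ j, e j ^ m = 1)
    (s : Finset (Fin n)) :
    Relation.ReflTransGen (Step m) H fun i j => if j ∈ s then e j * H i j else H i j := by
  induction s using Finset.induction_on with
  | empty => simpa using Relation.ReflTransGen.refl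
  | insert a s ha ih =>
    refine ih.tail (Or.inr (Or.inr (Or.inr ⟨a, e a, he a, fun i j => ?_⟩)))
    by_cases h : j = a
    · simp [h, ha]
    · simp [h]

theorem result : ∃ (m n : ℕ) (H K : Matrix (Fin n) (Fin n) ℂ), 1 ≤ m ∧ 2 ≤ n ∧ IsBH m H ∧
    Relation.ReflTransGen (Step m) H K ∧ Normalised H ∧ RowBal m H ∧ ColBal m H ∧
    Normalised K ∧ ¬ RowBal m K := by
  obtain ⟨h0, h1, h2, h3⟩ := g_val
  refine ⟨4, 16, fun i j => g (E i j), fun i j => g (E (Equiv.swap 0 1 i) j - E 1 j),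
    by norm_num, by norm_num, ⟨fun i j => g_pow _, ?_⟩, ?_, fun i j h => by simp only [d2 i j h, h0],
    fun i hi z w hz hw => ?_, fun i hi z w hz hw => ?_, fun i j h => ?_, fun h => ?_⟩
  · ext i k
    simp only [Matrix.mul_apply, Matrix.conjTranspose_apply, (g_sub _ _).2]
    by_cases hik : i = k
    · subst hik
      simp [h0]
    · rw [← Finset.sum_fiberwise' Finset.univ (fun j => E i j - E k j) g, Fin.sum_univ_four]
      simp only [Finset.sum_const, nsmul_eq_mul]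
      have := d1 i k hik
      unfold c at this
      rw [this.1, this.2, h0, h1, h2, h3]
      simp [hik]
  · refine Relation.ReflTransGen.head (b := fun i j => g (E (Equiv.swap 0 1 i) j))
      (Or.inl ⟨Equiv.swap 0 1, fun _ _ => rfl⟩) ?_
    have := cols (m := 4) (fun i j => g (E (Equiv.swap 0 1 i) j)) (fun j => g (-E 1 j))
      (fun j => g_pow _) Finset.univ
    simp only [Finset.mem_univ, if_true, (g_sub _ _).1] at this
    exact this
  · obtain ⟨x, rfl⟩ := root z hz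
    obtain ⟨y, rfl⟩ := root w hw
    rw [cnt, cnt, (d3 i hi x).1, (d3 i hi y).1]
  · obtain ⟨x, rfl⟩ := root z hz
    obtain ⟨y, rfl⟩ := root w hw
    rw [cnt (fun j => E j i), cnt (fun j => E j i), (d3 i hi x).2, (d3 i hi y).2]
  · have : ∀ i j : Fin 16, i.1 = 0 ∨ j.1 = 0 → E (Equiv.swap 0 1 i) j - E 1 j = 0 := by
      decide +kernel
    simp only [this i j h, h0]
  · have := h 2 (by decide) (g 0) (g 1) (g_pow _) (g_pow _)
    rw [cnt (fun j => E (Equiv.swap 0 1 2) j - E 1 j),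
      cnt (fun j => E (Equiv.swap 0 1 2) j - E 1 j)] at this
    revert this
    decide +kernel

end Pool.Agent.Results.MP_812af1_co.Counter
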